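import Pool.Agent.H.MP_4648ce_an.D

set_option autoImplicit false
open Set Filter Topology

namespace Pool.Agent.Results.MP_4648ce_an.Image

/-- The asymptotic set of a point under a map of the unit interval. -/
def AS (L : ℝ → ℝ) (x : ℝ) : Set ℝ :=
  {y ∈ Icc (0 : ℝ) 1 | Tendsto (fun n : ℕ => |L^[n] x - L^[n] y|) atTop (𝓝 0)}

theorem result (L : ℝ → ℝ) (L0 : L 0 = 0)
    (hL : ∀ n : ℕ, 1 ≤ n → ∀ x ∈ Ioc (1 / (n + 1) : ℝ) (1 / n), L x = n * (n + 1) * x - n) :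
    (fun x => dimH (AS L x)) '' Icc (0 : ℝ) 1 = Icc 0 (1 / 2) := by
  have k : ∀ y ∈ Icc (0 : ℝ) 1, y ≠ 0 → ∃ a : ℕ, 1 ≤ (a + 2) * y ∧ (a + 1) * y ≤ 1 ∧
      L y = (a + 1) * (a + 2) * y - (a + 1) := fun y hy e => by
    have y0 : 0 < y := hy.1.lt_of_ne' e
    have n1 : 1 ≤ ⌊1 / y⌋₊ := Nat.le_floor (by rw [le_div_iff₀ y0]; simpa using hy.2)
    obtain ⟨a, ha⟩ := Nat.exists_eq_add_of_le' n1
    have h1 := Nat.floor_le (a := 1 / y) (by positivity)
    have h2 := Nat.lt_floor_add_one (1 / y)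
    rw [ha] at h1 h2
    rw [div_lt_iff₀ y0] at h2
    rw [le_div_iff₀ y0] at h1
    have := hL (a + 1) (by simp) y ⟨by rw [div_lt_iff₀ (by positivity)]; linarith,
      by rw [le_div_iff₀ (by positivity)]; linarith⟩
    push_cast at *
    exact ⟨a, by linarith, h1, by linarith⟩
  refine (Pool.Agent.H.MP_4648ce_an.sysL L0 (fun y hy => ?_) (fun a x hx => ?_) fun y hy e => ?_).image
  · rcases eq_or_ne y 0 with rfl | e
    · simp [L0]
    obtain ⟨a, h1, h2, h3⟩ := k y hy e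
    have : (0 : ℝ) ≤ a := a.cast_nonneg
    rw [h3]; constructor <;> nlinarith
  · have := hL (a + 1) (by simp) x (by push_cast; exact ⟨by rw [add_assoc, one_add_one_eq_two]; exact hx.1, hx.2.le⟩)
    push_cast at this; linarith
  · exact (k y hy (by rintro rfl; exact e L0)).imp fun a h => h.2.2

end Pool.Agent.Results.MP_4648ce_an.Image
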